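import Pool.Agent.Lib_helper51.TM32.NDefs

/-!
TM32, phase 2, block N4b: continuation of a Dirichlet series with small partial sums.
-/

set_option autoImplicit false

namespace Pool.Agent.TM32

open Filter Topology MeasureTheory

/-- the partial sums as a function on the reals are locally integrable -/
theorem N4b_loc (r : ℕ → ℂ) :
    LocallyIntegrableOn (fun t : ℝ => ∑ k ∈ Finset.Icc 1 ⌊t⌋₊, r k) (Set.Ioi 0) := by
  have h1 : LocallyIntegrableOn (fun _ : ℝ => (1 : ℂ)) (Set.Ici (0 : ℝ)) :=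
    (continuous_const.locallyIntegrable).locallyIntegrableOn _
  have h2 := locallyIntegrableOn_mul_sum_Icc (c := r) (m := 1) (le_refl (0 : ℝ)) h1
  simp only [one_mul] at h2
  exact h2.mono_set Set.Ioi_subset_Ici_self

theorem cont_of_psum (r : ℕ → ℂ) (C : ℝ) (h : ∀ n : ℕ, ‖∑ k ∈ Finset.Icc 1 n, r k‖ ≤ C * Real.sqrt n)
    (hs : ∀ s : ℂ, 1 < s.re → LSeriesSummable r s) :
    ∃ G : ℂ → ℂ, DifferentiableOn ℂ G {s | 1 / 2 < s.re} ∧ ∀ s, 1 < s.re → LSeries r s = G s := by
  have hC : 0 ≤ C := by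
    have h1 := h 1
    rw [Nat.cast_one, Real.sqrt_one, mul_one] at h1
    exact (norm_nonneg _).trans h1
  set f : ℝ → ℂ := fun t => ∑ k ∈ Finset.Icc 1 ⌊t⌋₊, r k with hf
  have hf0 : ∀ t : ℝ, t < 1 → f t = 0 := by
    intro t ht
    have : ⌊t⌋₊ = 0 := Nat.floor_eq_zero.2 ht
    rw [hf]
    simp [this]
  have htop : f =O[atTop] (fun t : ℝ => t ^ (-(-(1 / 2 : ℝ)))) := by
    apply Asymptotics.IsBigO.of_bound C
    filter_upwards [eventually_ge_atTop 0] with t ht
    have h1 := h ⌊t⌋₊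
    refine h1.trans ?_
    rw [neg_neg, ← Real.sqrt_eq_rpow, Real.norm_eq_abs, abs_of_nonneg (Real.sqrt_nonneg _)]
    apply mul_le_mul_of_nonneg_left _ hC
    exact Real.sqrt_le_sqrt (Nat.floor_le ht)
  have hbot : ∀ b : ℝ, f =O[𝓝[>] 0] (fun t : ℝ => t ^ (-b)) := by
    intro b
    apply Asymptotics.IsBigO.of_bound 0
    have : Set.Iio (1 : ℝ) ∈ 𝓝[>] (0 : ℝ) :=
      mem_nhdsWithin_of_mem_nhds (Iio_mem_nhds (by norm_num))
    filter_upwards [this] with t ht
    rw [hf0 t ht]
    simp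
  have hdiff : ∀ s : ℂ, 1 / 2 < s.re → DifferentiableAt ℂ (mellin f) (-s) := by
    intro s hs'
    refine mellin_differentiableAt_of_isBigO_rpow (a := -(1 / 2)) (b := (-s).re - 1)
      (N4b_loc r) htop ?_ (hbot _) ?_
    · rw [Complex.neg_re]
      linarith
    · linarith
  refine ⟨fun s => s * mellin f (-s), ?_, ?_⟩
  · intro s hs'
    apply DifferentiableAt.differentiableWithinAt
    apply DifferentiableAt.mul differentiableAt_id
    exact (hdiff s hs').comp s differentiableAt_id.neg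
  · intro s hs'
    have hO : (fun n : ℕ => ∑ k ∈ Finset.Icc 1 n, r k) =O[atTop]
        fun n : ℕ => (n : ℝ) ^ (1 / 2 : ℝ) := by
      apply Asymptotics.IsBigO.of_bound C
      filter_upwards with n
      rw [← Real.sqrt_eq_rpow, Real.norm_eq_abs, abs_of_nonneg (Real.sqrt_nonneg _)]
      exact h n
    rw [LSeries_eq_mul_integral r (r := 1 / 2) (by norm_num) (by linarith) (hs s hs') hO]
    congr 1
    unfold mellin
    rw [setIntegral_eq_of_subset_of_forall_sdiff_eq_zero (s := Set.Ici (1 : ℝ)) measurableSet_Ioi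
      (fun t (ht : (1 : ℝ) ≤ t) => lt_of_lt_of_le one_pos ht)
      (fun t ht => by
        rw [hf0 t (not_le.1 ht.2)]
        simp),
      integral_Ici_eq_integral_Ioi]
    refine setIntegral_congr_fun measurableSet_Ioi fun t _ => ?_
    simp only [smul_eq_mul]
    rw [mul_comm]
    congr 2
    ring

end Pool.Agent.TM32
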