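import Pool.Agent.Lib_helper51.TM32.NDefs
import Pool.Agent.Lib_helper67.TM32.N2a
import Pool.Agent.Lib_helper13.TM32.N6
import Pool.Agent.Lib_helper90.PNT.WienerIkehara

/-!
TM32, phase 2, block N7a: from sums with `log p` to counting.
-/

set_option autoImplicit false

namespace Pool.Agent.TM32

open Filter Topology ArithmeticFunction

/-- prime powers are negligible -/
theorem N7a_prime (g : ℕ → ℝ) (B : ℝ) (hg : ∀ n, IsPrimePow n → |g n| ≤ B) (l : ℝ)
    (h : Tendsto (fun x : ℝ => (∑ k ∈ Finset.Icc 1 ⌊x⌋₊, g k * vonMangoldt k) / x) atTop (𝓝 l)) :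
    Tendsto (fun X : ℕ => (∑ p ∈ (Finset.Icc 1 X).filter Nat.Prime, g p * Real.log p) / X)
      atTop (𝓝 l) := by
  obtain ⟨C, hC⟩ := Chebyshev.psi_sub_theta_le_mul_sqrt
  have h1 : Tendsto (fun X : ℕ => (∑ k ∈ Finset.Icc 1 X, g k * vonMangoldt k) / (X : ℝ)) atTop
      (𝓝 l) := by
    refine (h.comp tendsto_natCast_atTop_atTop).congr fun X => ?_
    simp only [Function.comp, Nat.floor_natCast]
  have key : ∀ X : ℕ, |(∑ p ∈ (Finset.Icc 1 X).filter Nat.Prime, g p * Real.log p) -
      ∑ k ∈ Finset.Icc 1 X, g k * vonMangoldt k| ≤ |B| * (C * Real.sqrt X) := by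
    intro X
    rw [← Finset.sum_filter_add_sum_filter_not (Finset.Icc 1 X) Nat.Prime
      (fun k => g k * vonMangoldt k)]
    have e1 : ∑ p ∈ (Finset.Icc 1 X).filter Nat.Prime, g p * Real.log p =
        ∑ p ∈ (Finset.Icc 1 X).filter Nat.Prime, g p * vonMangoldt p := by
      apply Finset.sum_congr rfl
      intro p hp
      rw [vonMangoldt_apply_prime (Finset.mem_filter.1 hp).2]
    rw [e1, sub_add_cancel_left, abs_neg]
    refine (Finset.abs_sum_le_sum_abs _ _).trans ?_
    have e2 := hC X
    rw [Chebyshev.psi_sub_theta_eq_sum_not_prime, Nat.floor_natCast] at e2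
    have e3 : ∑ k ∈ (Finset.Icc 1 X).filter (fun k => ¬ k.Prime), |g k * vonMangoldt k| ≤
        ∑ k ∈ (Finset.Icc 1 X).filter (fun k => ¬ k.Prime), |B| * vonMangoldt k := by
      apply Finset.sum_le_sum
      intro k _
      rw [abs_mul, abs_of_nonneg (vonMangoldt_nonneg (n := k))]
      by_cases hk : IsPrimePow k
      · apply mul_le_mul_of_nonneg_right _ vonMangoldt_nonneg
        exact (hg k hk).trans (le_abs_self B)
      · rw [vonMangoldt_eq_zero_iff.2 hk, mul_zero, mul_zero]
    refine e3.trans ?_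
    rw [← Finset.mul_sum]
    apply mul_le_mul_of_nonneg_left _ (abs_nonneg B)
    refine le_trans ?_ e2
    apply Finset.sum_le_sum_of_subset_of_nonneg
    · intro k hk
      simp only [Finset.mem_filter, Finset.mem_Ioc, Finset.mem_Icc] at hk ⊢
      exact ⟨⟨by omega, hk.1.2⟩, hk.2⟩
    · intro k _ _
      exact vonMangoldt_nonneg
  have h2 : Tendsto (fun X : ℕ => ((∑ p ∈ (Finset.Icc 1 X).filter Nat.Prime, g p * Real.log p) -
      ∑ k ∈ Finset.Icc 1 X, g k * vonMangoldt k) / (X : ℝ)) atTop (𝓝 0) := by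
    have h3 : Tendsto (fun X : ℕ => (|B| * C) * (Real.sqrt X)⁻¹) atTop (𝓝 0) := by
      have := (tendsto_inv_atTop_zero.comp
        (Real.tendsto_sqrt_atTop.comp tendsto_natCast_atTop_atTop)).const_mul (|B| * C)
      rw [mul_zero] at this
      exact this
    apply squeeze_zero_norm' _ h3
    filter_upwards [eventually_gt_atTop 0] with X hX
    have hX' : (0 : ℝ) < X := by exact_mod_cast hX
    rw [Real.norm_eq_abs, abs_div, abs_of_pos hX', div_le_iff₀ hX']
    refine (key X).trans (le_of_eq ?_)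
    have hsq : Real.sqrt X * Real.sqrt X = X := Real.mul_self_sqrt hX'.le
    have hs0 : Real.sqrt X ≠ 0 := (Real.sqrt_pos.2 hX').ne'
    field_simp
    rw [pow_two, hsq]
  have h4 := h1.add h2
  rw [add_zero] at h4
  refine h4.congr fun X => ?_
  rw [← add_div]
  congr 1
  ring

/-- from weights `log n` to counting -/
theorem N7a_count (q : ℕ → Prop) [DecidablePred q] {c : ℝ} (hc : 0 < c)
    (h : Tendsto (fun X : ℕ => (∑ p ∈ (Finset.Icc 1 X).filter q, Real.log p) / (X : ℝ)) atTop
      (𝓝 c)) :
    Tendsto (fun X : ℕ => (((Finset.Icc 1 X).filter q).card : ℝ) * Real.log X / X) atTop (𝓝 c) := by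
  -- lower bound
  have low : ∀ X : ℕ, (∑ p ∈ (Finset.Icc 1 X).filter q, Real.log p) ≤
      (((Finset.Icc 1 X).filter q).card : ℝ) * Real.log X := by
    intro X
    rw [← nsmul_eq_mul, ← Finset.sum_const]
    apply Finset.sum_le_sum
    intro p hp
    have hp' := Finset.mem_Icc.1 (Finset.mem_filter.1 hp).1
    apply Real.log_le_log
    · exact_mod_cast hp'.1
    · exact_mod_cast hp'.2
  have up : ∀ η : ℝ, 0 < η → η < 1 → ∀ X : ℕ, 2 ≤ X →
      (((Finset.Icc 1 X).filter q).card : ℝ) ≤ (X : ℝ) ^ (1 - η) +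
        (∑ p ∈ (Finset.Icc 1 X).filter q, Real.log p) / ((1 - η) * Real.log X) := by
    intro η h0 h1 X hX
    have hX1 : (1 : ℝ) < X := by exact_mod_cast (by omega : 1 < X)
    have hlX : 0 < Real.log X := Real.log_pos hX1
    have hpos : 0 < (1 - η) * Real.log X := mul_pos (by linarith) hlX
    have s1 : (((Finset.Icc 1 X).filter q).card : ℝ) =
        ((((Finset.Icc 1 X).filter q).filter (fun p : ℕ => (p : ℝ) ≤ (X : ℝ) ^ (1 - η))).card : ℝ) +
        ((((Finset.Icc 1 X).filter q).filter (fun p : ℕ => ¬ (p : ℝ) ≤ (X : ℝ) ^ (1 - η))).card :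
          ℝ) := by
      rw [← Nat.cast_add, Finset.card_filter_add_card_filter_not]
    rw [s1]
    apply add_le_add
    · have : (((Finset.Icc 1 X).filter q).filter (fun p : ℕ => (p : ℝ) ≤ (X : ℝ) ^ (1 - η))) ⊆
          Finset.Icc 1 ⌊(X : ℝ) ^ (1 - η)⌋₊ := by
        intro p hp
        rw [Finset.mem_filter, Finset.mem_filter, Finset.mem_Icc] at hp
        rw [Finset.mem_Icc]
        exact ⟨hp.1.1.1, Nat.le_floor hp.2⟩
      have h2 := Finset.card_le_card this
      rw [Nat.card_Icc] at h2
      refine le_trans (by exact_mod_cast h2) (Nat.floor_le (by positivity))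
    · rw [le_div_iff₀ hpos, ← nsmul_eq_mul, ← Finset.sum_const]
      refine le_trans (Finset.sum_le_sum (g := fun p : ℕ => Real.log p) ?_)
        (Finset.sum_le_sum_of_subset_of_nonneg (Finset.filter_subset _ _) ?_)
      · intro p hp
        rw [Finset.mem_filter, not_le] at hp
        rw [← Real.log_rpow (by linarith)]
        exact Real.log_le_log (by positivity) hp.2.le
      · intro p hp _
        exact Real.log_natCast_nonneg p
  rw [tendsto_order]
  constructor
  · intro a ha
    filter_upwards [(tendsto_order.1 h).1 a ha, eventually_gt_atTop 0] with X hX hX0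
    have hX' : (0 : ℝ) < X := by exact_mod_cast hX0
    refine hX.trans_le ?_
    apply div_le_div_of_nonneg_right (low X) hX'.le
  · intro a ha
    have ha0 : 0 < a := hc.trans ha
    set η : ℝ := (1 - c / a) / 2 with hη
    have hca : c / a < 1 := by rw [div_lt_one ha0]; exact ha
    have hca0 : 0 < c / a := div_pos hc ha0
    have hη0 : 0 < η := by rw [hη]; linarith
    have hη1 : η < 1 := by rw [hη]; linarith
    have hlim : c / (1 - η) < a := by
      rw [div_lt_iff₀ (by linarith)]
      have : c = a * (c / a) := by field_simp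
      rw [hη]
      nlinarith
    have t1 : Tendsto (fun X : ℕ => Real.log X / (X : ℝ) ^ η) atTop (𝓝 0) :=
      ((isLittleO_log_rpow_atTop hη0).tendsto_div_nhds_zero).comp tendsto_natCast_atTop_atTop
    have t2 := t1.add (h.div_const (1 - η))
    rw [zero_add] at t2
    filter_upwards [(tendsto_order.1 t2).2 a hlim, eventually_ge_atTop 2] with X hX hX2
    have hX' : (0 : ℝ) < X := by exact_mod_cast (by omega : 0 < X)
    have hX1 : (1 : ℝ) < X := by exact_mod_cast (by omega : 1 < X)
    have hlX : 0 < Real.log X := Real.log_pos hX1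
    refine lt_of_le_of_lt ?_ hX
    have h5 := up η hη0 hη1 X hX2
    calc (((Finset.Icc 1 X).filter q).card : ℝ) * Real.log X / X
        ≤ ((X : ℝ) ^ (1 - η) + (∑ p ∈ (Finset.Icc 1 X).filter q, Real.log p) /
          ((1 - η) * Real.log X)) * Real.log X / X := by gcongr
      _ = Real.log X / (X : ℝ) ^ η +
          (∑ p ∈ (Finset.Icc 1 X).filter q, Real.log p) / X / (1 - η) := by
          rw [Real.rpow_sub hX', Real.rpow_one]
          have h6 : (X : ℝ) ^ η ≠ 0 := (Real.rpow_pos_of_pos hX' η).ne'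
          have h7 : (1 - η) ≠ 0 := by linarith
          field_simp

theorem half_density : Tendsto (fun X : ℕ =>
    (((Finset.Icc 1 X).filter (fun p => p.Prime ∧ p % 8 = 1 ∧ (rr p).re = -2)).card : ℝ) /
      (((Finset.Icc 1 X).filter (fun p => p.Prime ∧ p % 8 = 1)).card : ℝ)) atTop (𝓝 (1 / 2)) := by
  -- theta in the class 1 mod 8
  have hθ : Tendsto (fun X : ℕ => (∑ p ∈ (Finset.Icc 1 X).filter (fun p => p.Prime ∧ p % 8 = 1),
      Real.log p) / (X : ℝ)) atTop (𝓝 (1 / 4)) := by
    have h0 := Pool.Agent.Lib_helper90.PNT.pnt_residueClass (q := 8) (a := 1) isUnit_one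
    have h1 := N7a_prime (fun k => if (k : ZMod 8) = 1 then 1 else 0) 1
      (fun n _ => by split_ifs <;> simp) (1 / 4) (by
        have e : (((Nat.totient 8 : ℕ) : ℝ))⁻¹ = 1 / 4 := by
          have : Nat.totient 8 = 4 := by decide
          rw [this]
          norm_num
        rw [← e]
        refine h0.congr fun x => ?_
        congr 1
        apply Finset.sum_congr rfl
        intro k _
        unfold vonMangoldt.residueClass
        by_cases hk : (k : ZMod 8) = 1
        · rw [Set.indicator_of_mem (show k ∈ {n : ℕ | (n : ZMod 8) = 1} from hk), if_pos hk,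
            one_mul]
        · rw [Set.indicator_of_notMem (show k ∉ {n : ℕ | (n : ZMod 8) = 1} from hk), if_neg hk,
            zero_mul])
    refine h1.congr fun X => ?_
    congr 1
    rw [← Finset.filter_filter, Finset.sum_filter (fun p => p % 8 = 1)]
    apply Finset.sum_congr rfl
    intro p _
    have hiff : ((p : ZMod 8) = 1) ↔ p % 8 = 1 := by
      rw [← Nat.cast_one, ZMod.natCast_eq_natCast_iff']
    by_cases hp : p % 8 = 1
    · rw [if_pos (hiff.2 hp), if_pos hp, one_mul]
    · rw [if_neg (fun h => hp (hiff.1 h)), if_neg hp, zero_mul]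
  -- the signed sum
  have hD : Tendsto (fun X : ℕ => (∑ p ∈ (Finset.Icc 1 X).filter (fun p => p.Prime ∧ p % 8 = 1),
      (rr p).re / 2 * Real.log p) / (X : ℝ)) atTop (𝓝 0) := by
    have h1 := (N7a_prime (fun k => (aa k + bb k).re) 2 (fun n hn => (ab_real n hn).2) 0
      psi_sum).div_const 2
    rw [zero_div] at h1
    refine h1.congr fun X => ?_
    rw [div_right_comm]
    congr 1
    rw [← Finset.filter_filter, Finset.sum_filter (fun p => p % 8 = 1), Finset.sum_div]
    apply Finset.sum_congr rfl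
    intro p hp
    have hpp := (Finset.mem_filter.1 hp).2
    rw [ab_prime hpp]
    by_cases hp8 : p % 8 = 1
    · rw [if_pos hp8, if_pos hp8]
      ring
    · rw [if_neg hp8, if_neg hp8]
      simp
  have hπ := N7a_count (fun p => p.Prime ∧ p % 8 = 1) (by norm_num : (0 : ℝ) < 1 / 4) hθ
  have heps : ∀ X : ℕ, ∀ p ∈ (Finset.Icc 1 X).filter (fun p => p.Prime ∧ p % 8 = 1),
      (rr p).re / 2 = 1 ∨ (rr p).re / 2 = -1 := by
    intro X p hp
    have hp' := (Finset.mem_filter.1 hp).2
    rcases rr_prime hp'.1 hp'.2 with h | h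
    · left
      rw [h]
      norm_num
    · right
      rw [h]
      norm_num
  -- the signed count
  have hE : Tendsto (fun X : ℕ => (∑ p ∈ (Finset.Icc 1 X).filter (fun p => p.Prime ∧ p % 8 = 1),
      (rr p).re / 2) * Real.log X / (X : ℝ)) atTop (𝓝 0) := by
    have hbd : Tendsto (fun X : ℕ => |(∑ p ∈ (Finset.Icc 1 X).filter
        (fun p => p.Prime ∧ p % 8 = 1), (rr p).re / 2 * Real.log p) / (X : ℝ)| +
        ((((Finset.Icc 1 X).filter (fun p => p.Prime ∧ p % 8 = 1)).card : ℝ) * Real.log X / X -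
        (∑ p ∈ (Finset.Icc 1 X).filter (fun p => p.Prime ∧ p % 8 = 1), Real.log p) / (X : ℝ)))
        atTop (𝓝 0) := by
      have := hD.abs.add (hπ.sub hθ)
      simpa using this
    apply squeeze_zero_norm' _ hbd
    filter_upwards [eventually_gt_atTop 0] with X hX
    have hX' : (0 : ℝ) < X := by exact_mod_cast hX
    have hdiff : |(∑ p ∈ (Finset.Icc 1 X).filter (fun p => p.Prime ∧ p % 8 = 1), (rr p).re / 2) *
        Real.log X - ∑ p ∈ (Finset.Icc 1 X).filter (fun p => p.Prime ∧ p % 8 = 1),
          (rr p).re / 2 * Real.log p| ≤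
        (((Finset.Icc 1 X).filter (fun p => p.Prime ∧ p % 8 = 1)).card : ℝ) * Real.log X -
        ∑ p ∈ (Finset.Icc 1 X).filter (fun p => p.Prime ∧ p % 8 = 1), Real.log p := by
      rw [Finset.sum_mul, ← Finset.sum_sub_distrib, ← nsmul_eq_mul, ← Finset.sum_const,
        ← Finset.sum_sub_distrib]
      refine (Finset.abs_sum_le_sum_abs _ _).trans (Finset.sum_le_sum fun p hp => ?_)
      have hp' := Finset.mem_Icc.1 (Finset.mem_filter.1 hp).1
      have hl : Real.log p ≤ Real.log X := by
        apply Real.log_le_log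
        · exact_mod_cast hp'.1
        · exact_mod_cast hp'.2
      rw [← mul_sub, abs_mul, abs_of_nonneg (by linarith : (0 : ℝ) ≤ Real.log X - Real.log p)]
      rcases heps X p hp with h | h <;> rw [h] <;> simp
    rw [Real.norm_eq_abs]
    rw [← sub_div, abs_div, abs_div, abs_of_pos hX', ← add_div]
    apply div_le_div_of_nonneg_right _ hX'.le
    have t1 := abs_sub_abs_le_abs_sub ((∑ p ∈ (Finset.Icc 1 X).filter
      (fun p => p.Prime ∧ p % 8 = 1), (rr p).re / 2) * Real.log X)
      (∑ p ∈ (Finset.Icc 1 X).filter (fun p => p.Prime ∧ p % 8 = 1),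
          (rr p).re / 2 * Real.log p)
    linarith
  -- the count of the primes with sign `-1`
  have hcount : ∀ X : ℕ, (((Finset.Icc 1 X).filter
      (fun p => p.Prime ∧ p % 8 = 1 ∧ (rr p).re = -2)).card : ℝ) =
      ((((Finset.Icc 1 X).filter (fun p => p.Prime ∧ p % 8 = 1)).card : ℝ) -
        ∑ p ∈ (Finset.Icc 1 X).filter (fun p => p.Prime ∧ p % 8 = 1), (rr p).re / 2) / 2 := by
    intro X
    have e1 : (Finset.Icc 1 X).filter (fun p => p.Prime ∧ p % 8 = 1 ∧ (rr p).re = -2) =
        ((Finset.Icc 1 X).filter (fun p => p.Prime ∧ p % 8 = 1)).filter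
          (fun p => (rr p).re = -2) := by
      rw [Finset.filter_filter]
      apply Finset.filter_congr
      intro p _
      tauto
    rw [e1, Finset.card_filter, Finset.card_eq_sum_ones]
    push_cast
    rw [← Finset.sum_sub_distrib, Finset.sum_div]
    apply Finset.sum_congr rfl
    intro p hp
    rcases heps X p hp with h | h
    · rw [if_neg (by intro h'; rw [h'] at h; norm_num at h), h]
      norm_num
    · rw [if_pos (by linarith), h]
      norm_num
  have hfin := ((hπ.sub hE).div hπ (by norm_num)).div_const 2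
  have e : ((1 / 4 - 0) / (1 / 4) : ℝ) / 2 = 1 / 2 := by norm_num
  rw [e] at hfin
  refine hfin.congr' ?_
  filter_upwards [eventually_ge_atTop 2] with X hX
  have hX' : (0 : ℝ) < X := by exact_mod_cast (by omega : 0 < X)
  have hX1 : (1 : ℝ) < X := by exact_mod_cast (by omega : 1 < X)
  have hlX : 0 < Real.log X := Real.log_pos hX1
  rw [hcount X]
  have hne : Real.log X / X ≠ 0 := by positivity
  simp only [Pi.div_apply]
  rw [mul_div_assoc, mul_div_assoc, ← sub_mul, mul_div_mul_right _ _ hne]
  ring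

end Pool.Agent.TM32
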